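import Pool.Agent.L5helper79.Ons.Fin

/-!
# The endpoint orthonormal Strichartz estimate with Lorentz coefficients

`(E_d)` holds for every `d ≥ 2`.
-/

set_option autoImplicit false

open scoped ENNReal NNReal
open MeasureTheory FourierTransform

namespace Pool.Agent.Results.MP_dacecb_an.OrthonormalEndpoint

/-- The space `ℝ^d`. -/
abbrev E (d : ℕ) : Type := EuclideanSpace ℝ (Fin d)

/-- The space `L²(ℝ^d)`. -/
abbrev L2 (d : ℕ) : Type := Lp ℂ 2 (volume : Measure (E d))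

/-- The value `f(x)` of (the representative of) an element of `L²(ℝ^d)`. -/
noncomputable def val {d : ℕ} (f : L2 d) (x : E d) : ℂ := f x

/-- Mathlib's Fourier transform on `L²(ℝ^d)`, with kernel `exp(-2πi⟨x,ξ⟩)`. -/
noncomputable def FT {d : ℕ} (f : L2 d) : L2 d := 𝓕 f

/-- The symbol `exp(-4π² i t |ξ|²)` of `exp(itΔ)`. -/
noncomputable def symbol {d : ℕ} (t : ℝ) (ξ : E d) : ℂ :=
  Complex.exp (-((4 * Real.pi ^ 2 * t * ‖ξ‖ ^ 2 : ℝ) : ℂ) * Complex.I)

/-- `U` is the free Schrödinger propagator `U t = exp(itΔ)`. With Mathlib's Fourier transform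
`𝓕 f (ξ) = ∫ exp(-2πi⟨x,ξ⟩) f(x) dx` the Laplacian is multiplication by `-4π²|ξ|²`, so that
`𝓕 (U t f)(ξ) = exp(-4π² i t |ξ|²) 𝓕 f (ξ)` for almost every `ξ`. -/
def IsPropagator (d : ℕ) (U : ℝ → L2 d → L2 d) : Prop :=
  ∀ (t : ℝ) (f : L2 d), ∀ᵐ ξ : E d, val (FT (U t f)) ξ = symbol t ξ * val (FT f) ξ

/-- The decreasing rearrangement of `|a|`: `rearr a n` is the `(n+1)`-st largest value of `|a_j|`,
that is, the least `s` such that at most `n` of the numbers `|a_j|` exceed `s`. -/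
noncomputable def rearr {ι : Type*} (a : ι → ℂ) (n : ℕ) : ℝ≥0∞ :=
  sInf {s : ℝ≥0∞ | {j | s < ‖a j‖ₑ}.encard ≤ n}

/-- The norm of the Lorentz space `ℓ^{α,1}`: `∑_{n ≥ 1} n^{1/α - 1} a*_n`. -/
noncomputable def lorentzNorm {ι : Type*} (α : ℝ) (a : ι → ℂ) : ℝ≥0∞ :=
  ∑' n : ℕ, ((n : ℝ≥0∞) + 1) ^ (1 / α - 1) * rearr a n

/-- The mixed norm `L^p_t L^q_x` of a nonnegative function on `ℝ × ℝ^d`. -/
noncomputable def mixedNorm {d : ℕ} (p q : ℝ) (F : ℝ → E d → ℝ≥0∞) : ℝ≥0∞ :=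
  (∫⁻ t, ((∫⁻ x, (F t x) ^ q) ^ (1 / q)) ^ p) ^ (1 / p)

/-- The exponent `p = (d+1)/d`. -/
noncomputable def pExp (d : ℕ) : ℝ := ((d : ℝ) + 1) / d

/-- The exponent `q = (d+1)/(d-1)`. -/
noncomputable def qExp (d : ℕ) : ℝ := ((d : ℝ) + 1) / ((d : ℝ) - 1)

/-- The terms `a_j |u_j(x)|²` of the density. -/
noncomputable def term {d : ℕ} {ι : Type} (a : ι → ℂ) (u : ι → L2 d) (x : E d) (j : ι) : ℂ :=
  a j * ((‖val (u j) x‖ ^ 2 : ℝ) : ℂ)

/-- The density `∑_j a_j |u_j(x)|²`. -/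
noncomputable def dens {d : ℕ} {ι : Type} (a : ι → ℂ) (u : ι → L2 d) (x : E d) : ℂ :=
  ∑' j, term a u x j

/-- The sum `∑_j |a_j| |u_j(x)|²` in `[0,∞]`. -/
noncomputable def absDens {d : ℕ} {ι : Type} (a : ι → ℂ) (u : ι → L2 d) (x : E d) : ℝ≥0∞ :=
  ∑' j, ‖a j‖ₑ * ‖val (u j) x‖ₑ ^ 2

/-- The estimate for one orthonormal system `f` and one family `a` with constant `C`: the sum
`F(t,x) = ∑_j a_j |U(t) f_j (x)|²` converges absolutely for almost every `t` and `x`, its mixed norm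
and that of the sum of the absolute values are at most `C ‖a‖_{ℓ^{p,1}}`, and the inner integral of
the latter is a measurable function of time. -/
def Holds {d : ℕ} (U : ℝ → L2 d → L2 d) {ι : Type} (f : ι → L2 d) (a : ι → ℂ) (C : ℝ≥0) : Prop :=
  (∀ᵐ t : ℝ, ∀ᵐ x : E d, Summable (term a (fun j => U t (f j)) x)) ∧
  mixedNorm (pExp d) (qExp d) (fun t x => ‖dens a (fun j => U t (f j)) x‖ₑ) ≤
    C * lorentzNorm (pExp d) a ∧
  Measurable (fun t : ℝ => ∫⁻ x, absDens a (fun j => U t (f j)) x ^ (qExp d)) ∧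
  mixedNorm (pExp d) (qExp d) (fun t x => absDens a (fun j => U t (f j)) x) ≤
    C * lorentzNorm (pExp d) a

/-- The estimate `(E_d)`: one constant serves all finite or countable orthonormal systems and all
families with finite `ℓ^{p,1}` norm, `p = (d+1)/d`. -/
def StrichartzE (d : ℕ) : Prop :=
  ∃ C : ℝ≥0, ∀ U : ℝ → L2 d → L2 d, IsPropagator d U →
    ∀ (ι : Type) [Countable ι] (f : ι → L2 d), Orthonormal ℂ f →
      ∀ a : ι → ℂ, lorentzNorm (pExp d) a ≠ ∞ → Holds U f a C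

open Pool.Agent.L5helper79 in
lemma prop_eq {d : ℕ} {U : ℝ → L2 d → L2 d} (hU : IsPropagator d U) (t : ℝ) (f : L2 d) :
    U t f = Ons.Us (EuclideanSpace ℝ (Fin d)) 0 t f := by
  have h1 : (𝓕 (U t f) : L2 d) = 𝓕 (Ons.Us (EuclideanSpace ℝ (Fin d)) 0 t f) := by
    apply Lp.ext
    have h2 : (𝓕 (Ons.Us (EuclideanSpace ℝ (Fin d)) 0 t f) : L2 d) =
        Ons.mulOp volume (Ons.sym 0 t) (Ons.sym_meas 0 t) (Ons.sym_bd 0 t) (𝓕 f) :=
      (Lp.fourierTransformₗᵢ (EuclideanSpace ℝ (Fin d)) ℂ).apply_symm_apply _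
    rw [h2]
    filter_upwards [hU t f, Ons.mulOp_coe (Ons.sym 0 t) (Ons.sym_meas 0 t) (Ons.sym_bd 0 t)
      (𝓕 f : L2 d)] with ξ e1 e2
    refine e1.trans (Eq.trans ?_ e2.symm)
    show symbol t ξ * (𝓕 f : L2 d) ξ = Ons.sym 0 t ξ * (𝓕 f : L2 d) ξ
    congr 1
    unfold symbol Ons.sym Ons.bb
    congr 1
    simp only [abs_zero, Complex.ofReal_zero]
    push_cast
    ring
  exact (Lp.fourierTransformₗᵢ (EuclideanSpace ℝ (Fin d)) ℂ).injective h1

open Pool.Agent.L5helper79 in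
lemma prop_exists (d : ℕ) :
    IsPropagator d (fun t f => Ons.Us (EuclideanSpace ℝ (Fin d)) 0 t f) := by
  intro t f
  have h2 : (𝓕 (Ons.Us (EuclideanSpace ℝ (Fin d)) 0 t f) : L2 d) =
      Ons.mulOp volume (Ons.sym 0 t) (Ons.sym_meas 0 t) (Ons.sym_bd 0 t) (𝓕 f) :=
    (Lp.fourierTransformₗᵢ (EuclideanSpace ℝ (Fin d)) ℂ).apply_symm_apply _
  unfold val FT
  rw [h2]
  filter_upwards [Ons.mulOp_coe (Ons.sym 0 t) (Ons.sym_meas 0 t) (Ons.sym_bd 0 t)
    (𝓕 f : L2 d)] with ξ e2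
  rw [e2]
  congr 1
  unfold symbol Ons.sym Ons.bb
  congr 1
  simp only [abs_zero, Complex.ofReal_zero]
  push_cast
  ring

/-- The definition of `rearr` gives back a decreasing sequence (a sanity check, not part of the
result). -/
lemma rearr_antitone (a : ℕ → ℂ) (ha : Antitone fun n => ‖a n‖) (n : ℕ) :
    rearr a n = ‖a n‖ₑ := by
  have hen : ∀ m k, m ≤ k → ‖a k‖ₑ ≤ ‖a m‖ₑ := by
    intro m k hmk
    rw [← ofReal_norm, ← ofReal_norm]
    exact ENNReal.ofReal_le_ofReal (ha hmk)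
  apply le_antisymm
  · apply sInf_le
    have h1 : {j | ‖a n‖ₑ < ‖a j‖ₑ} ⊆ (Finset.range n : Set ℕ) := by
      intro j hj
      rw [Finset.coe_range, Set.mem_Iio]
      by_contra hcon
      exact absurd (lt_of_lt_of_le hj (hen n j (not_lt.1 hcon))) (lt_irrefl _)
    have h2 := Set.encard_le_encard h1
    rw [Set.encard_coe_eq_coe_finsetCard, Finset.card_range] at h2
    exact h2
  · apply le_sInf
    intro s hs
    by_contra hcon
    rw [not_le] at hcon
    have h1 : (Finset.range (n + 1) : Set ℕ) ⊆ {j | s < ‖a j‖ₑ} := by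
      intro j hj
      rw [Finset.coe_range, Set.mem_Iio] at hj
      exact lt_of_lt_of_le hcon (hen j n (by omega))
    have h2 := (Set.encard_le_encard h1).trans hs
    rw [Set.encard_coe_eq_coe_finsetCard, Finset.card_range] at h2
    have h3 : n + 1 ≤ n := by exact_mod_cast h2
    omega

/-- **`(E_d)` holds for every `d ≥ 2`** (and the propagator in it exists and is unique). -/
theorem result (d : ℕ) (hd : 2 ≤ d) :
    (∃! U : ℝ → L2 d → L2 d, IsPropagator d U) ∧ StrichartzE d := by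
  have D := Pool.Agent.L5helper79.Ons.disp_schr (V := EuclideanSpace ℝ (Fin d))
  rw [finrank_euclideanSpace_fin] at D
  have hp := Pool.Agent.L5helper79.Ons.one_le_pe hd
  have hq := Pool.Agent.L5helper79.Ons.one_le_qe hd
  have hp0 : 0 < Pool.Agent.L5helper79.Ons.pe d := by linarith
  have hq0 : 0 < Pool.Agent.L5helper79.Ons.qe d := by linarith
  refine ⟨⟨_, prop_exists d, ?_⟩, ?_⟩
  · intro U hU
    funext t f
    exact prop_eq hU t f
  · have hC : (4 * ENNReal.ofReal (Pool.Agent.L5helper79.Ons.cg d) ^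
        (1 / Pool.Agent.L5helper79.Ons.pe d) : ℝ≥0∞) ≠ ∞ := by
      apply ENNReal.mul_ne_top (by norm_num)
      exact ENNReal.rpow_ne_top_of_nonneg (by positivity) ENNReal.ofReal_ne_top
    refine ⟨(4 * ENNReal.ofReal (Pool.Agent.L5helper79.Ons.cg d) ^
        (1 / Pool.Agent.L5helper79.Ons.pe d) : ℝ≥0∞).toNNReal, ?_⟩
    intro U hU ι _ f hf a ha
    unfold Holds
    rw [ENNReal.coe_toNNReal hC]
    have hUe : ∀ t j, U t (f j) =
        Pool.Agent.L5helper79.Ons.Us (EuclideanSpace ℝ (Fin d)) 0 t (f j) :=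
      fun t j => prop_eq hU t (f j)
    simp only [hUe]
    have h4 := Pool.Agent.L5helper79.Ons.lorentz_abs D hd hf a
    refine ⟨?_, ?_, ?_, ?_⟩
    · filter_upwards [Pool.Agent.L5helper79.Ons.full_summable D hd hf a ha] with t ht
      filter_upwards [ht] with x hx
      apply Summable.of_norm
      refine hx.congr (fun j => ?_)
      unfold term
      rw [norm_mul, Complex.norm_real, Real.norm_eq_abs, abs_of_nonneg (by positivity)]
      rfl
    · refine le_trans ?_ h4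
      apply Pool.Agent.L5helper79.Ons.mixN_mono hp0 hq0
      intro t x
      unfold dens
      refine (enorm_tsum_le_tsum_enorm).trans (le_of_eq ?_)
      apply tsum_congr
      intro j
      unfold term
      rw [enorm_mul]
      congr 1
      rw [← ofReal_norm, Complex.norm_real, Real.norm_eq_abs, abs_of_nonneg (by positivity),
        ENNReal.ofReal_pow (norm_nonneg _), ofReal_norm]
      rfl
    · exact Pool.Agent.L5helper79.Ons.full_gI_meas D hd f a
    · exact h4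

end Pool.Agent.Results.MP_dacecb_an.OrthonormalEndpoint
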